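import Pool.Agent.W78.GR.Basic
import Pool.Agent.W638.GA.Dec3

/-!
Project GR (helper78), task GR-10: the decomposition, first part (content of a product).
-/

set_option autoImplicit false

namespace Pool.Agent.W638.GR

open Finset Filter
open Pool.Agent.H376R2.MR hiding GG Sm
open Pool.Agent.W78.GR
open Pool.Agent.W638.GA (nat_mul_re nat_mul_im gcd_mul_prim nat_mul_cancel content_unique lam_two
  Vl sum_inv_sq_le sm_one sm_prime sm_mul sm_dvd lat_of_lat mert_range)

variable {t c : ℤ} {η : (Qd t c)ˣ}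

theorem tp_of_mul (hd : 4 * c < t ^ 2) {a u : Qd t c} (ha : tp a) (h : tp (a * u)) : tp u := by
  unfold tp at *
  rw [s1_mul hd, s2_mul hd] at h
  exact ⟨(mul_pos_iff_of_pos_left ha.1).1 h.1, (mul_pos_iff_of_pos_left ha.2).1 h.2⟩

theorem gl_natCast_mul (hd : 4 * c < t ^ 2) {n : ℕ} (hn : 0 < n) {z : Qd t c} (hz : tp z) :
    gl ((n : Qd t c) * z) = gl z := by
  unfold gl
  rw [nm_mul, nm_natCast, lam_sq_mul hn.ne' (nm_pos hd hz).ne']

/-- the content of `a u` divides the norm of `a` if `u` is primitive -/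
theorem content_exists (hd : 4 * c < t ^ 2) {a u : Qd t c} (ha : tp a) (hut : tp u) (hu : prim u) :
    ∃ n ∈ (nm a).divisors, ∃ z : Qd t c, prim z ∧ a * u = (n : Qd t c) * z := by
  set x := a * u with hx
  have hx0 : x ≠ 0 := tp_ne_zero (tp_mul hd ha hut)
  set g := Int.gcd x.re x.im with hg
  have hg0 : 0 < g := by
    rw [Nat.pos_iff_ne_zero]
    intro h
    rw [hg, Int.gcd_eq_zero_iff] at h
    exact hx0 (QuadraticAlgebra.ext h.1 h.2)
  obtain ⟨r, hr⟩ := Int.gcd_dvd_left x.re x.im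
  obtain ⟨s, hs⟩ := Int.gcd_dvd_right x.re x.im
  rw [← hg] at hr hs
  have hxe : x = (g : Qd t c) * ⟨r, s⟩ := by
    apply QuadraticAlgebra.ext
    · rw [nat_mul_re]; exact hr
    · rw [nat_mul_im]; exact hs
  have hp : prim (⟨r, s⟩ : Qd t c) := by
    unfold prim
    show Int.gcd r s = 1
    have h1 : Int.gcd x.re x.im = g * Int.gcd r s := by
      rw [hr, hs, Int.gcd_mul_left]
      simp
    rw [← hg] at h1
    exact Nat.eq_of_mul_eq_mul_left hg0 (by rw [mul_one]; exact h1.symm)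
  refine ⟨g, ?_, _, hp, hxe⟩
  rw [Nat.mem_divisors]
  refine ⟨?_, (nm_pos hd ha).ne'⟩
  have h1 : (g : Qd t c) ∣ ((nm a : ℕ) : Qd t c) * u := by
    rw [← star_mul_self_tp hd ha, mul_assoc, ← hx]
    exact Dvd.dvd.mul_left (Dvd.intro _ hxe.symm) _
  obtain ⟨h2, h3⟩ := natCast_dvd.1 h1
  rw [nat_mul_re] at h2
  rw [nat_mul_im] at h3
  have h4 := Int.dvd_coe_gcd h2 h3
  rw [Int.gcd_mul_left] at h4
  unfold prim at hu
  rw [hu] at h4
  have h5 : (g : ℤ) ∣ ((nm a : ℕ) : ℤ) := by simpa using h4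
  exact Int.natCast_dvd_natCast.1 h5

theorem bg_zero (hd : 4 * c < t ^ 2) {Z : ℝ} (hZ : 0 < Z) {z : Qd t c} (hz : tp z)
    (h : ¬ (nm z : ℝ) ≤ Real.exp 1 * Z) : w (Real.log (nm z) - Real.log Z) = 0 := by
  have h0 := nm_posR hd hz
  rw [not_le] at h
  have h1 := Real.log_lt_log (by positivity) h
  rw [Real.log_mul (Real.exp_pos 1).ne' hZ.ne', Real.log_exp] at h1
  exact dec_w_zero (by rw [abs_of_pos (by linarith)]; linarith)

/-- the value of the term of content `n` at the representative -/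
theorem term_value (U : Un t c η) {a : Qd t c} (ha : tp a) (hl : lam (nm a) = 1)
    {Z : ℝ} {u z : Qd t c} (hu : tp u) (hz : tp z) {n : ℕ} (hn0 : 0 < n) (j : ℤ)
    (he : a * u = (n : Qd t c) * (((η ^ j : (Qd t c)ˣ) : Qd t c) * z)) :
    Real.log (nm u) = Real.log (nm z) + 2 * Real.log n - Real.log (nm a) ∧
    (nm a : ℝ) * nm u = (n : ℝ) ^ 2 * nm z ∧
    ∀ k : ℤ, (1 / ((nm a : ℕ) : ℂ)) * ((gl u : ℂ) * (bg Z u : ℂ)) * ps η k (a * u) =
      ((Vl (nm a) n (Real.log Z) z / nm z : ℝ) : ℂ) * ps η k z := by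
  have hd := U.disc
  have hmR : (0 : ℝ) < nm a := nm_posR hd ha
  have hmC : ((nm a : ℕ) : ℂ) ≠ 0 := by exact_mod_cast hmR.ne'
  have hN : (0 : ℝ) < nm z := nm_posR hd hz
  have hNc : ((nm z : ℕ) : ℂ) ≠ 0 := by exact_mod_cast hN.ne'
  have hnR : (0 : ℝ) < n := by exact_mod_cast hn0
  have hnC : (n : ℂ) ≠ 0 := by exact_mod_cast hn0.ne'
  have hjz : tp (((η ^ j : (Qd t c)ˣ) : Qd t c) * z) := (U.tp_zpow_mul j).2 hz
  have hNu : (0 : ℝ) < nm u := nm_posR hd hu
  have hNuc : ((nm u : ℕ) : ℂ) ≠ 0 := by exact_mod_cast hNu.ne'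
  have h2 : nm a * nm u = n ^ 2 * nm z := by
    rw [← nm_mul, he, nm_mul, nm_natCast, Un.nm_zpow_mul]
  have h3 : (nm a : ℝ) * nm u = (n : ℝ) ^ 2 * nm z := by exact_mod_cast h2
  have h3c : ((nm a : ℕ) : ℂ) * ((nm u : ℕ) : ℂ) = (n : ℂ) ^ 2 * ((nm z : ℕ) : ℂ) := by
    exact_mod_cast h2
  have hlog : Real.log (nm u) = Real.log (nm z) + 2 * Real.log n - Real.log (nm a) := by
    have := congrArg Real.log h3
    rw [Real.log_mul hmR.ne' hNu.ne', Real.log_mul (by positivity) hN.ne', Real.log_pow] at this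
    push_cast at this
    linarith
  have hgl : gl u = gl z := by
    have h4 : gl (a * u) = gl u := by
      rw [gl_mul U.nsq (tp_ne_zero ha) (tp_ne_zero hu)]
      unfold gl
      rw [hl, one_mul]
    rw [← h4, he, gl_natCast_mul hd hn0 hjz]
    unfold gl
    rw [Un.nm_zpow_mul]
  refine ⟨hlog, h3, fun k => ?_⟩
  have hps : ps η k (a * u) = ps η k z := by
    rw [he, ps_mul hd k (tp_natCast hn0) hjz, ps_natCast hn0, one_mul, U.ps_zpow_mul j k hz]
  rw [hps, hgl]
  unfold bg Vl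
  rw [hlog]
  push_cast
  have hdd : (1 / ((nm a : ℕ) : ℂ)) / ((nm u : ℕ) : ℂ) =
      1 / (n : ℂ) ^ 2 / ((nm z : ℕ) : ℂ) := by
    rw [div_div, div_div, h3c]
  linear_combination ((gl z : ℂ) * ((w (Real.log (nm z) + 2 * Real.log n -
    Real.log (nm a) - Real.log Z) : ℝ) : ℂ) * ps η k z) * hdd

open scoped Classical in
/-- the product of one element with `G`, sorted by the content -/
theorem one_term (U : Un t c η) {a : Qd t c} (ha : tp a) (hl : lam (nm a) = 1)
    {Z : ℝ} (hZ : 0 < Z) {D : Finset (Qd t c)}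
    (hDD : ∀ z : Qd t c, fd η z → prim z → (nm z : ℝ) ≤ nm a * (Real.exp 1 * Z) → z ∈ D)
    (hDp : ∀ z ∈ D, fd η z ∧ prim z) (k : ℤ) :
    ps η k a / ((nm a : ℕ) : ℂ) * GG η Z k =
      ∑ z ∈ D, ((∑ n ∈ (nm a).divisors, (if ∃ u : Qd t c, prim u ∧ a * u = (n : Qd t c) * z then
        Vl (nm a) n (Real.log Z) z else 0) / nm z : ℝ) : ℂ) * ps η k z := by
  have hd := U.disc
  have hm0 : 0 < nm a := nm_pos hd ha
  have hmR : (0 : ℝ) < nm a := nm_posR hd ha
  have ha0 := tp_ne_zero ha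
  set P := pball η (Real.exp 1 * Z) with hP
  set F : Qd t c → ℂ := fun u => (1 / ((nm a : ℕ) : ℂ)) * ((gl u : ℂ) * (bg Z u : ℂ)) *
    ps η k (a * u) with hF
  have e1 : ps η k a / ((nm a : ℕ) : ℂ) * GG η Z k = ∑ u ∈ P, F u := by
    unfold GG DPG
    rw [Finset.mul_sum]
    refine Finset.sum_congr rfl fun u hu => ?_
    have hut : tp u := (U.mem_pball.1 hu).1.1
    simp only [hF]
    rw [ps_mul hd k ha hut]
    ring
  have e2 : ∑ u ∈ P, F u = ∑ z ∈ D, ∑ n ∈ (nm a).divisors, ∑ u ∈ P,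
      (if ∃ j : ℤ, a * u = (n : Qd t c) * (((η ^ j : (Qd t c)ˣ) : Qd t c) * z) then F u else 0) := by
    have h1 : ∀ u ∈ P, F u = ∑ z ∈ D, ∑ n ∈ (nm a).divisors,
        (if ∃ j : ℤ, a * u = (n : Qd t c) * (((η ^ j : (Qd t c)ˣ) : Qd t c) * z) then F u
          else 0) := by
      intro u hu
      rw [hP, U.mem_pball] at hu
      obtain ⟨n, hn, z', hz', he'⟩ := content_exists hd ha hu.1.1 hu.2.1
      have hn0 : 0 < n := Nat.pos_of_mem_divisors hn
      have hnR : (1 : ℝ) ≤ n := by exact_mod_cast hn0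
      have hz't : tp z' := by
        apply tp_of_mul hd (tp_natCast (t := t) (c := c) hn0)
        rw [← he']
        exact tp_mul hd ha hu.1.1
      set z := rep η z' with hz
      have hzf : fd η z := U.rep_fd hz't
      have hzp : prim z := Un.prim_rep.2 hz'
      have hnz : nm z = nm z' := Un.nm_rep z'
      have hzz : z' = (((η ^ (-(ex η z')) : (Qd t c)ˣ) : Qd t c) * z) := by
        rw [hz]
        unfold rep
        rw [← mul_assoc, ← Units.val_mul, ← zpow_add, neg_add_cancel, zpow_zero, Units.val_one,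
          one_mul]
      have hex : ∃ j : ℤ, a * u = (n : Qd t c) * (((η ^ j : (Qd t c)ˣ) : Qd t c) * z) :=
        ⟨-(ex η z'), by rw [← hzz]; exact he'⟩
      have hzD : z ∈ D := by
        apply hDD z hzf hzp
        have h2 : nm a * nm u = n ^ 2 * nm z := by
          rw [← nm_mul, he', nm_mul, nm_natCast, hnz]
        have h3 : (nm a : ℝ) * nm u = (n : ℝ) ^ 2 * nm z := by exact_mod_cast h2
        have h4 : (0 : ℝ) ≤ nm z := Nat.cast_nonneg _
        have h5 : (1 : ℝ) ≤ (n : ℝ) ^ 2 := one_le_pow₀ hnR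
        calc (nm z : ℝ) ≤ (n : ℝ) ^ 2 * nm z := le_mul_of_one_le_left h4 h5
          _ = nm a * nm u := h3.symm
          _ ≤ nm a * (Real.exp 1 * Z) := mul_le_mul_of_nonneg_left hu.2.2 hmR.le
      have huniq : ∀ z'' ∈ D, ∀ n' : ℕ,
          (∃ j : ℤ, a * u = (n' : Qd t c) * (((η ^ j : (Qd t c)ˣ) : Qd t c) * z'')) →
          n' = n ∧ z'' = z := by
        intro z'' hz'' n' hj
        obtain ⟨j, hj⟩ := hj
        obtain ⟨h1, h2⟩ := hDp z'' hz''
        rw [he'] at hj
        obtain ⟨h3, h4⟩ := content_unique hz' (prim_zpow_mul j |>.2 h2) hn0.ne' hj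
        refine ⟨h3.symm, ?_⟩
        rw [hz, h4, U.rep_zpow_mul j h1.1, U.rep_eq_self h1]
      rw [Finset.sum_eq_single_of_mem z hzD, Finset.sum_eq_single_of_mem n hn]
      · rw [if_pos hex]
      · intro n' hn' hne
        rw [if_neg]
        intro h
        exact hne (huniq z hzD n' h).1
      · intro z'' hz'' hne
        refine Finset.sum_eq_zero fun n' hn' => ?_
        rw [if_neg]
        intro h
        exact hne (huniq z'' hz'' n' h).2
    rw [Finset.sum_congr rfl h1, Finset.sum_comm]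
    refine Finset.sum_congr rfl fun z _ => ?_
    rw [Finset.sum_comm]
  rw [e1, e2]
  refine Finset.sum_congr rfl fun z hz => ?_
  obtain ⟨hzf, hzp⟩ := hDp z hz
  push_cast
  rw [Finset.sum_mul]
  refine Finset.sum_congr rfl fun n hn => ?_
  have hn0 : 0 < n := Nat.pos_of_mem_divisors hn
  have hnz : tp ((n : Qd t c) * z) := tp_mul hd (tp_natCast hn0) hzf.1
  by_cases hex : ∃ u : Qd t c, prim u ∧ a * u = (n : Qd t c) * z
  · obtain ⟨u', hu', he'⟩ := hex
    rw [if_pos ⟨u', hu', he'⟩]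
    have hut' : tp u' := by
      apply tp_of_mul hd ha
      rw [he']
      exact hnz
    set u := rep η u' with hu
    have huf : fd η u := U.rep_fd hut'
    have hup : prim u := Un.prim_rep.2 hu'
    have he : a * u = (n : Qd t c) * (((η ^ (ex η u') : (Qd t c)ˣ) : Qd t c) * z) := by
      have h1 : a * u = ((η ^ (ex η u') : (Qd t c)ˣ) : Qd t c) * (a * u') := by
        rw [hu]
        unfold rep
        ring
      rw [h1, he']
      ring
    have huniq : ∀ u'' ∈ P,
        (∃ j : ℤ, a * u'' = (n : Qd t c) * (((η ^ j : (Qd t c)ˣ) : Qd t c) * z)) → u'' = u := by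
      intro u'' hu'' hj
      obtain ⟨j, hj⟩ := hj
      rw [hP, U.mem_pball] at hu''
      have h1 : a * u'' = a * (((η ^ j : (Qd t c)ˣ) : Qd t c) * u') := by
        have h2 : a * (((η ^ j : (Qd t c)ˣ) : Qd t c) * u') =
            ((η ^ j : (Qd t c)ˣ) : Qd t c) * (a * u') := by ring
        rw [h2, he', hj]
        ring
      have h2 := mul_cancel U.nsq ha0 h1
      rw [hu, ← U.rep_eq_self hu''.1, h2, U.rep_zpow_mul j hut']
    obtain ⟨hlog, -, hval⟩ := term_value (Z := Z) U ha hl huf.1 hzf.1 hn0 _ he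
    by_cases hin : u ∈ P
    · rw [Finset.sum_eq_single_of_mem u hin, if_pos ⟨_, he⟩]
      · simp only [hF]
        rw [hval k]
        push_cast
        ring
      · intro u'' hu'' hne
        rw [if_neg]
        intro h
        exact hne (huniq u'' hu'' h)
    · have hw : w (Real.log (nm u) - Real.log Z) = 0 := by
        apply bg_zero hd hZ huf.1
        intro h
        apply hin
        rw [hP, U.mem_pball]
        exact ⟨huf, hup, h⟩
      rw [Finset.sum_eq_zero]
      · unfold Vl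
        rw [← hlog, hw]
        simp
      · intro u'' hu''
        rw [if_neg]
        intro h
        rw [huniq u'' hu'' h] at hu''
        exact hin hu''
  · rw [if_neg hex, Finset.sum_eq_zero]
    · simp
    · intro u hu
      rw [if_neg]
      rintro ⟨j, hj⟩
      rw [hP, U.mem_pball] at hu
      apply hex
      refine ⟨((η ^ (-j) : (Qd t c)ˣ) : Qd t c) * u, (prim_zpow_mul _).2 hu.2.1, ?_⟩
      have h1 : a * (((η ^ (-j) : (Qd t c)ˣ) : Qd t c) * u) =
          ((η ^ (-j) : (Qd t c)ˣ) : Qd t c) * (a * u) := by ring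
      have h2 : ((η ^ (-j) : (Qd t c)ˣ) : Qd t c) * ((η ^ j : (Qd t c)ˣ) : Qd t c) = 1 := by
        rw [← Units.val_mul, ← zpow_add, neg_add_cancel, zpow_zero, Units.val_one]
      rw [h1, hj]
      linear_combination ((n : Qd t c) * z) * h2

end Pool.Agent.W638.GR
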