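import Pool.Agent.W638.GR.Dec1

/-!
Project GR (helper78), task GR-10: the decomposition, second part (mean square of the imprimitive
part).
-/

set_option autoImplicit false

namespace Pool.Agent.W638.GR

open Finset Filter
open Pool.Agent.H376R2.MR hiding GG Sm
open Pool.Agent.W78.GR
open Pool.Agent.W638.GA (nat_mul_re nat_mul_im gcd_mul_prim nat_mul_cancel content_unique lam_two
  Vl sum_inv_sq_le sm_one sm_prime sm_mul sm_dvd lat_of_lat mert_range)

variable {t c : ℤ} {η : (Qd t c)ˣ}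

open scoped Classical in
/-- the mean square of the imprimitive part -/
theorem imprim (U : Un t c η) (S : Finset ℕ) (P Q : ℕ → ℕ) (I : ℕ → Qd t c → Prop)
    {C₁ C₂ : ℝ} (hC₁ : 0 ≤ C₁) (hC₂ : 0 ≤ C₂)
    (hPQ : ∀ m ∈ S, m = P m * Q m ∧ 1 ≤ P m ∧ 1 ≤ Q m)
    (hwin : ∀ m ∈ S, ∀ m' ∈ S, ∀ Z : ℝ, 0 < Z →
      ∑ z ∈ win η Z, (if I (Q m) z ∧ I (Q m') z then 1 / (nm z : ℝ) else 0) ≤
        C₁ * (1 / ((Q m : ℝ) * Q m') + if Q m = Q m' then 1 / (Q m : ℝ) else 0))
    (hmert : ∀ m ∈ S, ∑ m' ∈ S.filter (fun m' => P m' = P m), 1 / (Q m' : ℝ) ≤ C₂)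
    (D : Finset (Qd t c)) (hDp : ∀ z ∈ D, tp z) {Y : ℝ} (hY : 0 < Y) :
    ∑ z ∈ D, Y * (∑ m ∈ S, if z ∈ win η (Y / (P m : ℝ) ^ 2) ∧ I (Q m) z then
      1 / (P m : ℝ) ^ 2 else 0) ^ 2 / (nm z : ℝ) ^ 2 ≤
      Real.exp 2 * C₁ * (Real.exp 6 * (C₂ + 1)) * ∑ m ∈ S, 1 / (m : ℝ) := by
  set cl : ℕ → ℕ → Prop := fun m m' =>
    (P m : ℝ) ≤ Real.exp 2 * P m' ∧ (P m' : ℝ) ≤ Real.exp 2 * P m with hcl
  -- pointwise
  have hpt : ∀ z ∈ D, Y * (∑ m ∈ S, if z ∈ win η (Y / (P m : ℝ) ^ 2) ∧ I (Q m) z then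
      1 / (P m : ℝ) ^ 2 else 0) ^ 2 / (nm z : ℝ) ^ 2 ≤
      ∑ m ∈ S, ∑ m' ∈ S, (if cl m m' then Real.exp 2 * (1 / (P m' : ℝ) ^ 2) *
        (if z ∈ win η (Y / (P m : ℝ) ^ 2) then
          (if I (Q m) z ∧ I (Q m') z then 1 / (nm z : ℝ) else 0) else 0) else 0) := by
    intro z hz
    have hN : (0 : ℝ) < nm z := nm_posR U.disc (hDp z hz)
    rw [sq (∑ m ∈ S, _), Finset.sum_mul_sum, Finset.mul_sum, Finset.sum_div]
    refine Finset.sum_le_sum fun m hm => ?_
    rw [Finset.mul_sum, Finset.sum_div]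
    refine Finset.sum_le_sum fun m' hm' => ?_
    obtain ⟨-, hP, -⟩ := hPQ m hm
    obtain ⟨-, hP', -⟩ := hPQ m' hm'
    have hP0 : (0 : ℝ) < P m := by exact_mod_cast hP
    have hP0' : (0 : ℝ) < P m' := by exact_mod_cast hP'
    have he := Real.exp_pos 2
    by_cases h1 : z ∈ win η (Y / (P m : ℝ) ^ 2) ∧ I (Q m) z
    · by_cases h2 : z ∈ win η (Y / (P m' : ℝ) ^ 2) ∧ I (Q m') z
      · rw [if_pos h1, if_pos h2]
        obtain ⟨h3, h4⟩ := h1
        obtain ⟨h5, h6⟩ := h2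
        have h3' := h3
        rw [U.mem_win] at h3 h5
        obtain ⟨-, a1, a2⟩ := h3
        obtain ⟨-, b1, b2⟩ := h5
        rw [div_div, div_le_iff₀ (by positivity)] at a1 b1
        rw [← mul_div_assoc, le_div_iff₀ (by positivity)] at a2 b2
        have hee : Real.exp 2 * Real.exp 2 = (Real.exp 2) ^ 2 := by ring
        have hcc : cl m m' := by
          constructor
          · apply le_of_sq_le_sq _ (by positivity)
            rw [mul_pow, ← hee]
            -- nm P^2 <= e^2 Y <= e^2 * nm * P'^2 * e^2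
            have h7 : (nm z : ℝ) * (P m : ℝ) ^ 2 ≤
                (nm z : ℝ) * (Real.exp 2 * Real.exp 2 * (P m' : ℝ) ^ 2) := by
              calc (nm z : ℝ) * (P m : ℝ) ^ 2 ≤ Real.exp 2 * Y := a2
                _ ≤ Real.exp 2 * ((nm z : ℝ) * ((P m' : ℝ) ^ 2 * Real.exp 2)) :=
                    mul_le_mul_of_nonneg_left b1 he.le
                _ = _ := by ring
            exact le_of_mul_le_mul_left h7 hN
          · apply le_of_sq_le_sq _ (by positivity)
            rw [mul_pow, ← hee]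
            have h7 : (nm z : ℝ) * (P m' : ℝ) ^ 2 ≤
                (nm z : ℝ) * (Real.exp 2 * Real.exp 2 * (P m : ℝ) ^ 2) := by
              calc (nm z : ℝ) * (P m' : ℝ) ^ 2 ≤ Real.exp 2 * Y := b2
                _ ≤ Real.exp 2 * ((nm z : ℝ) * ((P m : ℝ) ^ 2 * Real.exp 2)) :=
                    mul_le_mul_of_nonneg_left a1 he.le
                _ = _ := by ring
            exact le_of_mul_le_mul_left h7 hN
        rw [if_pos hcc, if_pos h3', if_pos ⟨h4, h6⟩]
        have h8 : Y * (1 / (P m : ℝ) ^ 2 * (1 / (P m' : ℝ) ^ 2)) / (nm z : ℝ) ^ 2 =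
            (Y / ((nm z : ℝ) * (P m : ℝ) ^ 2)) * ((1 / (P m' : ℝ) ^ 2) * (1 / (nm z : ℝ))) := by
          field_simp
        rw [h8, mul_assoc (Real.exp 2)]
        apply mul_le_mul_of_nonneg_right _ (by positivity)
        rw [div_le_iff₀ (by positivity)]
        linarith
      · rw [if_neg h2]
        simp only [mul_zero, zero_div]
        split_ifs <;> positivity
    · rw [if_neg h1]
      simp only [zero_mul, mul_zero, zero_div]
      split_ifs <;> positivity
  refine (Finset.sum_le_sum hpt).trans ?_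
  rw [Finset.sum_comm]
  have hstep : ∀ m ∈ S, ∑ z ∈ D, ∑ m' ∈ S,
      (if cl m m' then Real.exp 2 * (1 / (P m' : ℝ) ^ 2) *
        (if z ∈ win η (Y / (P m : ℝ) ^ 2) then
          (if I (Q m) z ∧ I (Q m') z then 1 / (nm z : ℝ) else 0) else 0) else 0) ≤
      Real.exp 2 * C₁ * (Real.exp 6 * (C₂ + 1)) * (1 / (m : ℝ)) := by
    intro m hm
    obtain ⟨hmPQ, hP, hQ⟩ := hPQ m hm
    have hP0 : (0 : ℝ) < P m := by exact_mod_cast hP
    have hQ0 : (0 : ℝ) < Q m := by exact_mod_cast hQ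
    rw [Finset.sum_comm]
    have h1 : ∀ m' ∈ S, ∑ z ∈ D,
      (if cl m m' then Real.exp 2 * (1 / (P m' : ℝ) ^ 2) *
        (if z ∈ win η (Y / (P m : ℝ) ^ 2) then
          (if I (Q m) z ∧ I (Q m') z then 1 / (nm z : ℝ) else 0) else 0) else 0) ≤
        if cl m m' then Real.exp 2 * C₁ * ((1 / (Q m : ℝ)) * ((1 / (P m' : ℝ) ^ 2) *
          (1 / (Q m' : ℝ))) + (1 / (Q m : ℝ)) * (if Q m = Q m' then
            1 / (P m' : ℝ) ^ 2 else 0)) else 0 := by
      intro m' hm'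
      obtain ⟨-, hP', hQ'⟩ := hPQ m' hm'
      have hP0' : (0 : ℝ) < P m' := by exact_mod_cast hP'
      have hQ0' : (0 : ℝ) < Q m' := by exact_mod_cast hQ'
      by_cases hc : cl m m'
      · simp only [if_pos hc]
        rw [← Finset.mul_sum]
        have h2 : ∑ z ∈ D, (if z ∈ win η (Y / (P m : ℝ) ^ 2) then
          (if I (Q m) z ∧ I (Q m') z then 1 / (nm z : ℝ) else 0) else 0) ≤
          C₁ * (1 / ((Q m : ℝ) * Q m') + if Q m = Q m' then 1 / (Q m : ℝ) else 0) := by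
          refine le_trans ?_ (hwin m hm m' hm' (Y / (P m : ℝ) ^ 2) (by positivity))
          rw [← Finset.sum_filter]
          refine Finset.sum_le_sum_of_subset_of_nonneg ?_ ?_
          · intro z hz
            exact (mem_filter.1 hz).2
          · intro z _ _
            split_ifs <;> positivity
        refine (mul_le_mul_of_nonneg_left h2 (by positivity)).trans (le_of_eq ?_)
        split_ifs
        · field_simp
        · field_simp
          ring
      · simp only [if_neg hc]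
        simp
    refine (Finset.sum_le_sum h1).trans ?_
    rw [← Finset.sum_filter, ← Finset.mul_sum, Finset.sum_add_distrib, ← Finset.mul_sum,
      ← Finset.mul_sum]
    set T := S.filter (fun m' => cl m m') with hT
    have hTS : ∀ m' ∈ T, m' ∈ S ∧ cl m m' := fun m' hm' => mem_filter.1 hm'
    -- first sum
    have hs1 : ∑ m' ∈ T, 1 / (P m' : ℝ) ^ 2 * (1 / (Q m' : ℝ)) ≤ C₂ * (Real.exp 6 / P m) := by
      rw [← Finset.sum_fiberwise_of_maps_to (t := T.image P) (g := P)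
        (fun m' hm' => Finset.mem_image_of_mem P hm')]
      have h2 : ∀ p ∈ T.image P, ∑ m' ∈ T.filter (fun m' => P m' = p),
          1 / (P m' : ℝ) ^ 2 * (1 / (Q m' : ℝ)) ≤ C₂ * (1 / (p : ℝ) ^ 2) := by
        intro p hp
        rw [mem_image] at hp
        obtain ⟨m₀, hm₀, rfl⟩ := hp
        have h3 : ∑ m' ∈ T.filter (fun m' => P m' = P m₀),
            1 / (P m' : ℝ) ^ 2 * (1 / (Q m' : ℝ)) =
            1 / (P m₀ : ℝ) ^ 2 * ∑ m' ∈ T.filter (fun m' => P m' = P m₀), 1 / (Q m' : ℝ) := by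
          rw [Finset.mul_sum]
          refine Finset.sum_congr rfl fun m' hm' => ?_
          rw [(mem_filter.1 hm').2]
        rw [h3, mul_comm]
        apply mul_le_mul_of_nonneg_right _ (by positivity)
        refine le_trans ?_ (hmert m₀ (hTS m₀ hm₀).1)
        refine Finset.sum_le_sum_of_subset_of_nonneg ?_ ?_
        · intro x hx
          rw [mem_filter] at hx ⊢
          exact ⟨(hTS x hx.1).1, hx.2⟩
        · intro x _ _
          positivity
      refine (Finset.sum_le_sum h2).trans ?_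
      rw [← Finset.mul_sum]
      apply mul_le_mul_of_nonneg_left _ hC₂
      apply sum_inv_sq_le hP0
      intro p hp
      rw [mem_image] at hp
      obtain ⟨m₀, hm₀, rfl⟩ := hp
      exact ⟨(hPQ m₀ (hTS m₀ hm₀).1).2.1, (hTS m₀ hm₀).2⟩
    -- second sum
    have hs2 : ∑ m' ∈ T, (if Q m = Q m' then 1 / (P m' : ℝ) ^ 2 else 0) ≤ Real.exp 6 / P m := by
      rw [← Finset.sum_filter]
      set T' := T.filter (fun m' => Q m = Q m') with hT'
      have hinj : Set.InjOn P (T' : Set ℕ) := by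
        intro a ha b hb hab
        rw [mem_coe, hT', mem_filter] at ha hb
        rw [(hPQ a (hTS a ha.1).1).1, (hPQ b (hTS b hb.1).1).1, hab, ← ha.2, ← hb.2]
      have h2 : ∑ m' ∈ T', 1 / (P m' : ℝ) ^ 2 = ∑ p ∈ T'.image P, 1 / (p : ℝ) ^ 2 := by
        rw [Finset.sum_image hinj]
      rw [h2]
      apply sum_inv_sq_le hP0
      intro p hp
      rw [mem_image] at hp
      obtain ⟨m₀, hm₀, rfl⟩ := hp
      have hm₁ := (mem_filter.1 hm₀).1
      exact ⟨(hPQ m₀ (hTS m₀ hm₁).1).2.1, (hTS m₀ hm₁).2⟩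
    have hm' : (m : ℝ) = P m * Q m := by exact_mod_cast hmPQ
    calc Real.exp 2 * C₁ * (1 / (Q m : ℝ) * ∑ m' ∈ T, 1 / (P m' : ℝ) ^ 2 * (1 / (Q m' : ℝ)) +
          1 / (Q m : ℝ) * ∑ m' ∈ T, (if Q m = Q m' then 1 / (P m' : ℝ) ^ 2 else 0))
        ≤ Real.exp 2 * C₁ * (1 / (Q m : ℝ) * (C₂ * (Real.exp 6 / P m)) +
          1 / (Q m : ℝ) * (Real.exp 6 / P m)) := by
          apply mul_le_mul_of_nonneg_left _ (by positivity)
          apply add_le_add
          · exact mul_le_mul_of_nonneg_left hs1 (by positivity)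
          · exact mul_le_mul_of_nonneg_left hs2 (by positivity)
      _ = _ := by
          rw [hm']
          field_simp
  have hswap : ∑ m ∈ S, ∑ z ∈ D, ∑ m' ∈ S,
      (if cl m m' then Real.exp 2 * (1 / (P m' : ℝ) ^ 2) *
        (if z ∈ win η (Y / (P m : ℝ) ^ 2) then
          (if I (Q m) z ∧ I (Q m') z then 1 / (nm z : ℝ) else 0) else 0) else 0) ≤
      ∑ m ∈ S, Real.exp 2 * C₁ * (Real.exp 6 * (C₂ + 1)) * (1 / (m : ℝ)) :=
    Finset.sum_le_sum hstep
  refine hswap.trans (le_of_eq ?_)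
  rw [← Finset.mul_sum]

end Pool.Agent.W638.GR
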