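import Pool.Agent.W638.GR.Dec2

/-!
Project GR (helper78), task GR-10: the decomposition, third part (arithmetic of the elements,
windows, primes in a range).
-/

set_option autoImplicit false

namespace Pool.Agent.W638.GR

open Finset Filter
open Pool.Agent.H376R2.MR hiding GG Sm
open Pool.Agent.W78.GR
open Pool.Agent.W638.GA (nat_mul_re nat_mul_im gcd_mul_prim nat_mul_cancel content_unique lam_two
  Vl sum_inv_sq_le sm_one sm_prime sm_mul sm_dvd lat_of_lat mert_range)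

variable {t c : ℤ} {η : (Qd t c)ˣ} {Ap Bp M : ℕ → Prop} {E : ℕ} {ρ : ℕ → ℤ} {ϖ : ℕ → Qd t c}

theorem star_not_lat (U : Un t c η) (he : Ele t c Ap Bp M E ρ ϖ) {m q : ℕ} (hm : M m)
    (hSm : Sm Ap Bp m) (hq : q.Prime) (hAB : Ap q ∨ Bp q) (hqm : q ∣ m) (hq2 : ¬ q ^ 2 ∣ m) :
    ¬ lat q (ρ q) (star (ϖ m)) := by
  intro h
  obtain ⟨hn, hl, htp⟩ := he.elt m hm
  have h1 : lat q (ρ q) (ϖ m) := lat_of_lat hqm (he.compat q m hSm hqm) hl
  have hqi : Prime (q : ℤ) := Nat.prime_iff_prime_int.1 hq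
  have hroot := he.root q (sm_prime hq hAB)
  have hdisc : ¬ (q : ℤ) ∣ t ^ 2 - 4 * c := by
    rcases hAB with h | h
    · exact (he.prA q h).2.2
    · exact (he.prB q h).2.2
  unfold lat at h h1
  simp only [QuadraticAlgebra.re_star, QuadraticAlgebra.im_star] at h
  have h2 : (q : ℤ) ∣ (t - 2 * ρ q) * (ϖ m).im := by
    have e : (t - 2 * ρ q) * (ϖ m).im = ((ϖ m).re + t * (ϖ m).im + ρ q * -(ϖ m).im) -
        ((ϖ m).re + ρ q * (ϖ m).im) := by ring
    rw [e]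
    exact dvd_sub h h1
  have h3 : (q : ℤ) ∣ (ϖ m).im := by
    rcases hqi.dvd_or_dvd h2 with h3 | h3
    · exfalso
      apply hdisc
      have e : t ^ 2 - 4 * c = (t - 2 * ρ q) * (t - 2 * ρ q) - 4 * (ρ q ^ 2 - t * ρ q + c) := by
        ring
      rw [e]
      exact dvd_sub (h3.mul_right _) (hroot.mul_left _)
    · exact h3
  have h4 : (q : ℤ) ∣ (ϖ m).re := by
    have e : (ϖ m).re = ((ϖ m).re + ρ q * (ϖ m).im) - ρ q * (ϖ m).im := by ring
    rw [e]
    exact dvd_sub h1 (h3.mul_left (ρ q))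
  obtain ⟨a, ha⟩ := h4
  obtain ⟨b, hb⟩ := h3
  apply hq2
  have h5 : ((q ^ 2 : ℕ) : ℤ) ∣ (m : ℤ) := by
    rw [← hn, nm_tp_int U.disc htp, ha, hb]
    push_cast
    exact ⟨a ^ 2 + t * a * b + c * b ^ 2, by ring⟩
  exact_mod_cast h5

theorem lat_of_content (U : Un t c η) (he : Ele t c Ap Bp M E ρ ϖ) {m n q : ℕ} (hm : M m)
    (hSm : Sm Ap Bp m) (hq : q.Prime) (hAB : Ap q ∨ Bp q) (hn : n ≠ 0) (hqm : n * q ∣ m)
    (hq2 : ¬ q ^ 2 ∣ m) {u z : Qd t c} (h : ϖ m * u = (n : Qd t c) * z) : lat q (ρ q) z := by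
  have hns := star_not_lat U he hm hSm hq hAB ((Dvd.intro_left _ rfl).trans hqm) hq2
  obtain ⟨r, hr⟩ := hqm
  have h1 : (n : Qd t c) * (star (ϖ m) * z) = (n : Qd t c) * (((q * r : ℕ) : Qd t c) * u) := by
    have h2 : star (ϖ m) * (ϖ m * u) = ((m : ℕ) : Qd t c) * u := by
      rw [← mul_assoc, star_mul_self_tp U.disc (he.elt m hm).2.2, (he.elt m hm).1]
    rw [h] at h2
    have h3 : (n : Qd t c) * (star (ϖ m) * z) = star (ϖ m) * ((n : Qd t c) * z) := by ring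
    rw [h3, h2, hr]
    push_cast
    ring
  have h2 := nat_mul_cancel hn h1
  have h3 : lat q (ρ q) (star (ϖ m) * z) := by
    rw [h2]
    unfold lat
    rw [nat_mul_re, nat_mul_im]
    push_cast
    exact ⟨r * u.re + ρ q * (r * u.im), by ring⟩
  have h4 := lat_mul_eq (he.root q (sm_prime hq hAB)) (star (ϖ m)) z
  have hqi : Prime (q : ℤ) := Nat.prime_iff_prime_int.1 hq
  unfold lat at h3 hns ⊢
  have h5 := (dvd_sub_right h3).1 h4
  rcases hqi.dvd_or_dvd h5 with h6 | h6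
  · exact absurd h6 hns
  · exact h6

theorem win_lat (U : Un t c η) (hI : S_LATI t c η) : ∃ C : ℝ, 0 < C ∧ ∀ (d : ℕ) (r : ℤ),
    1 ≤ d → (d : ℤ) ∣ r ^ 2 - t * r + c → ∀ Z : ℝ, 0 < Z →
      ∑ z ∈ (win η Z).filter (lat d r), 1 / (nm z : ℝ) ≤ C / d := by
  obtain ⟨C, hC, h⟩ := hI
  refine ⟨6 * C, by positivity, ?_⟩
  intro d r hd hr Z hZ
  obtain ⟨-, -, h3⟩ := h d r hd hr
  have he : Real.exp 2 * Z / (Z / Real.exp 3) = Real.exp 5 := by
    have : Real.exp 5 = Real.exp 2 * Real.exp 3 := by rw [← Real.exp_add]; norm_num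
    rw [this]
    field_simp
  have h1e : (1 : ℝ) ≤ Real.exp 3 := Real.one_le_exp (by norm_num)
  have h2e : (1 : ℝ) ≤ Real.exp 2 := Real.one_le_exp (by norm_num)
  have h4 := h3 (Z / Real.exp 3) (Real.exp 2 * Z) (by positivity) (by
    calc Z / Real.exp 3 ≤ Z := div_le_self hZ.le h1e
      _ ≤ Real.exp 2 * Z := le_mul_of_one_le_left hZ.le h2e)
  rw [he, Real.log_exp] at h4
  refine (Finset.sum_le_sum_of_subset_of_nonneg ?_ ?_).trans (h4.trans (le_of_eq ?_))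
  · intro z hz
    rw [mem_filter, U.mem_win] at hz
    rw [mem_filter, U.mem_ann]
    obtain ⟨⟨h5, h6, h7⟩, h8⟩ := hz
    refine ⟨⟨h5, lt_of_lt_of_le ?_ h6, h7⟩, h8⟩
    exact div_lt_div_of_pos_left hZ (Real.exp_pos 2) (Real.exp_lt_exp.2 (by norm_num))
  · intro z _ _
    positivity
  · ring

theorem win_two (he : Ele t c Ap Bp M E ρ ϖ) {C : ℝ} (hC : 0 < C)
    (hw : ∀ (d : ℕ) (r : ℤ), 1 ≤ d → (d : ℤ) ∣ r ^ 2 - t * r + c → ∀ Z : ℝ, 0 < Z →
      ∑ z ∈ (win η Z).filter (lat d r), 1 / (nm z : ℝ) ≤ C / d)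
    {q q' : ℕ} (hq : Sm Ap Bp q) (hq' : Sm Ap Bp q') (h : q = q' ∨ q.Coprime q') {Z : ℝ}
    (hZ : 0 < Z) :
    ∑ z ∈ win η Z, (if lat q (ρ q) z ∧ lat q' (ρ q') z then 1 / (nm z : ℝ) else 0) ≤
      C * (1 / ((q : ℝ) * q') + if q = q' then 1 / (q : ℝ) else 0) := by
  have hq0 : 0 < q := Nat.pos_of_ne_zero hq.1
  have hq0' : 0 < q' := Nat.pos_of_ne_zero hq'.1
  rcases h with h | h
  · subst h
    simp only [and_self, if_true]
    rw [← Finset.sum_filter]
    refine (hw q (ρ q) hq0 (he.root q hq) Z hZ).trans ?_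
    have h1 : C / (q : ℝ) = C * (1 / (q : ℝ)) := by ring
    rw [h1]
    apply mul_le_mul_of_nonneg_left _ hC.le
    have : 0 ≤ 1 / ((q : ℝ) * q) := by positivity
    linarith
  · rw [← Finset.sum_filter]
    have hqq := sm_mul hq hq'
    have h1 := hw (q * q') (ρ (q * q')) (Nat.mul_pos hq0 hq0') (he.root _ hqq) Z hZ
    refine (Finset.sum_le_sum_of_subset_of_nonneg ?_ ?_).trans (h1.trans ?_)
    · intro z hz
      rw [mem_filter] at hz ⊢
      refine ⟨hz.1, ?_⟩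
      obtain ⟨h2, h3⟩ := hz.2
      unfold lat at *
      have e1 : (q : ℤ) ∣ z.re + ρ (q * q') * z.im := by
        have h4 := he.compat q (q * q') hqq (Dvd.intro _ rfl)
        have : z.re + ρ (q * q') * z.im = (z.re + ρ q * z.im) + (ρ (q * q') - ρ q) * z.im := by
          ring
        rw [this]
        exact dvd_add h2 (h4.mul_right _)
      have e2 : (q' : ℤ) ∣ z.re + ρ (q * q') * z.im := by
        have h4 := he.compat q' (q * q') hqq (Dvd.intro_left _ rfl)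
        have : z.re + ρ (q * q') * z.im = (z.re + ρ q' * z.im) + (ρ (q * q') - ρ q') * z.im := by
          ring
        rw [this]
        exact dvd_add h3 (h4.mul_right _)
      push_cast
      exact IsCoprime.mul_dvd (Nat.isCoprime_iff_coprime.2 h) e1 e2
    · intro z _ _
      positivity
    · push_cast
      have h5 : 0 ≤ (if q = q' then 1 / (q : ℝ) else 0) := by split_ifs <;> positivity
      have h6 : C / ((q : ℝ) * q') = C * (1 / ((q : ℝ) * q')) := by ring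
      rw [h6]
      apply mul_le_mul_of_nonneg_left _ hC.le
      linarith

end Pool.Agent.W638.GR
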