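import Pool.Agent.W638.GR.Dec4

/-!
Project GR (helper78), task GR-10: the decomposition, fifth part (the mean square of the
contribution of the non-primitive products).
-/

set_option autoImplicit false

namespace Pool.Agent.W638.GR

open Finset Filter
open Pool.Agent.H376R2.MR hiding GG Sm
open Pool.Agent.W78.GR
open Pool.Agent.W638.GA (nat_mul_re nat_mul_im gcd_mul_prim nat_mul_cancel content_unique lam_two
  Vl sum_inv_sq_le sm_one sm_prime sm_mul sm_dvd lat_of_lat mert_range cellM_facts cellM_disj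
  fibre_bound erase_sum_le)

variable {t c : ℤ} {η : (Qd t c)ˣ} {Ap Bp M : ℕ → Prop} {E : ℕ} {ρ : ℕ → ℤ} {ϖ : ℕ → Qd t c}

open scoped Classical in
theorem win_two' (he : Ele t c Ap Bp M E ρ ϖ) {C : ℝ} (hC : 0 < C)
    (hw : ∀ (d : ℕ) (r : ℤ), 1 ≤ d → (d : ℤ) ∣ r ^ 2 - t * r + c → ∀ Z : ℝ, 0 < Z →
      ∑ z ∈ (win η Z).filter (lat d r), 1 / (nm z : ℝ) ≤ C / d)
    {q q' : ℕ} (hq : Sm Ap Bp q) (hq' : Sm Ap Bp q') (h : q = q' ∨ q.Coprime q') {Z : ℝ}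
    (hZ : 0 < Z) {I : ℕ → Qd t c → Prop} (hI : ∀ q z, I q z ↔ lat q (ρ q) z) :
    ∑ z ∈ win η Z, (if I q z ∧ I q' z then 1 / (nm z : ℝ) else 0) ≤
      C * (1 / ((q : ℝ) * q') + if q = q' then 1 / (q : ℝ) else 0) := by
  refine le_trans (le_of_eq (Finset.sum_congr rfl fun z _ => ?_)) (win_two he hC hw hq hq' h hZ)
  by_cases h1 : lat q (ρ q) z ∧ lat q' (ρ q') z
  · rw [if_pos h1, if_pos ⟨(hI _ _).2 h1.1, (hI _ _).2 h1.2⟩]
  · rw [if_neg h1, if_neg (fun h2 => h1 ⟨(hI _ _).1 h2.1, (hI _ _).1 h2.2⟩)]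

/-- the mean square of the contribution of the non-primitive products -/
theorem dB_mean (U : Un t c η) (hI : S_LATI t c η) (he : Ele t c Ap Bp M E ρ ϖ) :
    ∃ K : ℝ, 0 < K ∧ ∀ (H v₀ v₁ : ℕ), 1 ≤ H → ∀ Y : ℝ, 0 < Y →
      ∑ z ∈ pball η (Real.exp 2 * Y), Y * (dB M ϖ H v₀ v₁ Y z) ^ 2 / (nm z : ℝ) ^ 2 ≤
        K * ∑ v ∈ Ico v₀ v₁, mE M H v := by
  classical
  obtain ⟨C, hC, hw⟩ := win_lat U hI
  obtain ⟨C₂, hC₂, hR⟩ := mert_range E he.pos
  have hC₂0 : 0 ≤ C₂ := by linarith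
  have hfac := he.fac
  choose! pA pB h1 h2 h3 h4 h5 using hfac
  set K₀ : ℝ := Real.exp 2 * C * (Real.exp 6 * (C₂ + 1)) with hK₀
  refine ⟨9 * K₀, by positivity, ?_⟩
  intro H v₀ v₁ hH Y hY
  set S : Finset ℕ := (Ico v₀ v₁).biUnion (cellM M H) with hS
  have hdisj : Set.PairwiseDisjoint (↑(Ico v₀ v₁) : Set ℕ) (cellM M H) := by
    intro v _ v' _ hne
    rw [Function.onFun, Finset.disjoint_left]
    intro p hp hp'
    exact hne (cellM_disj hH hp hp')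
  have hWS : ∑ m ∈ S, 1 / (m : ℝ) = ∑ v ∈ Ico v₀ v₁, mE M H v := by
    rw [hS, Finset.sum_biUnion hdisj]; rfl
  have hSM : ∀ m ∈ S, M m := by
    intro m hm
    rw [hS, mem_biUnion] at hm
    obtain ⟨v, _, hm⟩ := hm
    exact (cellM_facts hm).1
  set D := pball η (Real.exp 2 * Y) with hDdef
  have hDfd : ∀ z ∈ D, fd η z := by
    intro z hz
    rw [hDdef, U.mem_pball] at hz
    exact hz.1
  have hDne : ∀ z ∈ D, tp z := fun z hz => (hDfd z hz).1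
  have hcop : ∀ a b : ℕ, a.Prime → b.Prime → a = b ∨ a.Coprime b := by
    intro a b ha hb
    by_cases hab : a = b
    · exact Or.inl hab
    · exact Or.inr ((Nat.coprime_primes ha hb).2 hab)
  obtain ⟨I, hIdef⟩ : ∃ I : ℕ → Qd t c → Prop, ∀ q z, I q z ↔ lat q (ρ q) z :=
    ⟨fun q z => lat q (ρ q) z, fun _ _ => Iff.rfl⟩
  have i1 := imprim U S pA pB I hC.le hC₂0
    (fun m hm => ⟨h3 m (hSM m hm), (he.prA _ (h1 m (hSM m hm))).1.pos,
      (he.prB _ (h2 m (hSM m hm))).1.pos⟩)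
    (fun m hm m' hm' Z hZ => win_two' he hC hw
      (sm_prime (he.prB _ (h2 m (hSM m hm))).1 (Or.inr (h2 m (hSM m hm))))
      (sm_prime (he.prB _ (h2 m' (hSM m' hm'))).1 (Or.inr (h2 m' (hSM m' hm'))))
      (hcop _ _ (he.prB _ (h2 m (hSM m hm))).1 (he.prB _ (h2 m' (hSM m' hm'))).1) hZ hIdef)
    (fibre_bound hR (fun m hm => ⟨h3 m (hSM m hm), (he.prA _ (h1 m (hSM m hm))).2.1,
      (he.prB _ (h2 m (hSM m hm))).1, (he.prB _ (h2 m (hSM m hm))).2.1, h4 m (hSM m hm),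
      h5 m (hSM m hm)⟩)) D hDne hY
  have i2 := imprim U S pB pA I hC.le hC₂0
    (fun m hm => ⟨(h3 m (hSM m hm)).trans (mul_comm _ _), (he.prB _ (h2 m (hSM m hm))).1.pos,
      (he.prA _ (h1 m (hSM m hm))).1.pos⟩)
    (fun m hm m' hm' Z hZ => win_two' he hC hw
      (sm_prime (he.prA _ (h1 m (hSM m hm))).1 (Or.inl (h1 m (hSM m hm))))
      (sm_prime (he.prA _ (h1 m' (hSM m' hm'))).1 (Or.inl (h1 m' (hSM m' hm'))))
      (hcop _ _ (he.prA _ (h1 m (hSM m hm))).1 (he.prA _ (h1 m' (hSM m' hm'))).1) hZ hIdef)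
    (fibre_bound hR (fun m hm => ⟨(h3 m (hSM m hm)).trans (mul_comm _ _),
      (he.prB _ (h2 m (hSM m hm))).2.1, (he.prA _ (h1 m (hSM m hm))).1,
      (he.prA _ (h1 m (hSM m hm))).2.1, h5 m (hSM m hm), h4 m (hSM m hm)⟩)) D hDne hY
  have i3 := imprim U S (fun m => m) (fun _ => 1) I hC.le hC₂0
    (fun m hm => ⟨(mul_one m).symm, (ele_facts he (hSM m hm)).2.2.1, le_rfl⟩)
    (fun m hm m' hm' Z hZ => win_two' he hC hw sm_one sm_one (Or.inl rfl) hZ hIdef)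
    (by
      intro m hm
      rw [Finset.filter_eq' S m, if_pos hm, Finset.sum_singleton]
      simpa using hC₂) D hDne hY
  rw [← hK₀] at i1 i2 i3
  rw [hWS] at i1 i2 i3
  set W : ℝ := ∑ v ∈ Ico v₀ v₁, mE M H v with hW
  -- pointwise
  set β : ℕ → ℕ → Qd t c → ℝ := fun n n' z =>
    if z ∈ win η (Y / (n : ℝ) ^ 2) ∧ I n' z then 1 / (n : ℝ) ^ 2 else 0 with hβ
  have hβ0 : ∀ n n' z, 0 ≤ β n n' z := by
    intro n n' z
    simp only [hβ]
    split_ifs <;> positivity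
  have hpt : ∀ z ∈ D, |dB M ϖ H v₀ v₁ Y z| ≤ ∑ m ∈ S, β (pA m) (pB m) z +
      ∑ m ∈ S, β (pB m) (pA m) z + ∑ m ∈ S, β m 1 z := by
    intro z hz
    have hz0 := hDfd z hz
    rw [← Finset.sum_add_distrib, ← Finset.sum_add_distrib, hS, Finset.sum_biUnion hdisj]
    unfold dB
    refine (Finset.abs_sum_le_sum_abs _ _).trans (Finset.sum_le_sum fun v _ => ?_)
    refine (Finset.abs_sum_le_sum_abs _ _).trans (Finset.sum_le_sum fun m hm => ?_)
    obtain ⟨hmM, -, -⟩ := cellM_facts hm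
    obtain ⟨hSm, -, -, -⟩ := ele_facts he hmM
    have hA := h1 m hmM
    have hB := h2 m hmM
    have hAp := (he.prA _ hA).1
    have hBp := (he.prB _ hB).1
    have hm3 := h3 m hmM
    have hne : pA m ≠ pB m := by
      intro h
      rw [← h] at hB
      exact he.disj _ hA hB
    have hqA : ¬ (pA m) ^ 2 ∣ m := by
      intro h
      have h' := h.trans (dvd_of_eq hm3)
      rw [sq] at h'
      have := Nat.dvd_of_mul_dvd_mul_left hAp.pos h'
      exact hne ((Nat.prime_dvd_prime_iff_eq hAp hBp).1 this)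
    have hqB : ¬ (pB m) ^ 2 ∣ m := by
      intro h
      have h' := h.trans (dvd_of_eq hm3)
      rw [sq] at h'
      have := Nat.dvd_of_mul_dvd_mul_right hBp.pos h'
      exact hne ((Nat.prime_dvd_prime_iff_eq hBp hAp).1 this).symm
    set F : ℕ → ℝ := fun n => if ∃ u : Qd t c, prim u ∧ ϖ m * u = (n : Qd t c) * z then
      Vl m n (Real.log Y - (v : ℝ) / H) z else 0 with hF
    have e1 : |∑ n ∈ m.divisors.erase 1, F n| ≤ |F (pA m)| + |F (pB m)| + |F m| := by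
      have := erase_sum_le hAp hBp hne F
      rw [← hm3] at this
      exact this
    refine e1.trans ?_
    refine add_le_add (add_le_add ?_ ?_) ?_
    · exact dB_term U hH hm hAp.ne_zero hY hz0 (fun u hu => (hIdef _ _).2
        (lat_of_content U he hmM hSm hBp (Or.inr hB) hAp.ne_zero (by rw [← hm3]) hqB hu))
    · exact dB_term U hH hm hBp.ne_zero hY hz0 (fun u hu => (hIdef _ _).2
        (lat_of_content U he hmM hSm hAp (Or.inl hA) hBp.ne_zero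
          (by rw [mul_comm, ← hm3]) hqA hu))
    · refine dB_term U hH hm hSm.1 hY hz0 (fun u _ => (hIdef _ _).2 ?_)
      unfold lat
      simp
  have hsq : ∀ z ∈ D, Y * (dB M ϖ H v₀ v₁ Y z) ^ 2 / (nm z : ℝ) ^ 2 ≤
      3 * (Y * (∑ m ∈ S, β (pA m) (pB m) z) ^ 2 / (nm z : ℝ) ^ 2) +
      3 * (Y * (∑ m ∈ S, β (pB m) (pA m) z) ^ 2 / (nm z : ℝ) ^ 2) +
      3 * (Y * (∑ m ∈ S, β m 1 z) ^ 2 / (nm z : ℝ) ^ 2) := by
    intro z hz
    have hN : (0 : ℝ) < nm z := nm_posR U.disc (hDne z hz)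
    have e1 := pow_le_pow_left₀ (abs_nonneg _) (hpt z hz) 2
    rw [sq_abs] at e1
    set a := ∑ m ∈ S, β (pA m) (pB m) z
    set b := ∑ m ∈ S, β (pB m) (pA m) z
    set d := ∑ m ∈ S, β m 1 z
    have e2 : (a + b + d) ^ 2 ≤ 3 * a ^ 2 + 3 * b ^ 2 + 3 * d ^ 2 := by
      nlinarith [sq_nonneg (a - b), sq_nonneg (a - d), sq_nonneg (b - d)]
    have e3 : 3 * (Y * a ^ 2 / (nm z : ℝ) ^ 2) + 3 * (Y * b ^ 2 / (nm z : ℝ) ^ 2) +
        3 * (Y * d ^ 2 / (nm z : ℝ) ^ 2) =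
        Y * (3 * a ^ 2 + 3 * b ^ 2 + 3 * d ^ 2) / (nm z : ℝ) ^ 2 := by ring
    rw [e3]
    apply div_le_div_of_nonneg_right _ (by positivity)
    exact mul_le_mul_of_nonneg_left (e1.trans e2) hY.le
  refine (Finset.sum_le_sum hsq).trans ?_
  rw [Finset.sum_add_distrib, Finset.sum_add_distrib, ← Finset.mul_sum, ← Finset.mul_sum,
    ← Finset.mul_sum]
  linarith

end Pool.Agent.W638.GR
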